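import Pool.Agent.helper14.AU.Spec

/-!
# Project au: (MP_d58e27_lc), module TS1: soundness of the list of triples
-/

set_option autoImplicit false

namespace Pool.Agent.helper14.AU

theorem TS1_area_mk (P : ℕ → Pt) (p q f : ℕ) :
    area (P (mk p q f).1) (P (mk p q f).2.1) (P (mk p q f).2.2) = area (P p) (P q) (P f) := by
  have hsymm : ∀ a b c : Pt, area a b c = area b a c := by
    intro a b c
    unfold area
    rw [← abs_neg]
    refine congrArg (fun x : ℝ => |x| / 2) ?_
    ring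
  unfold mk
  rcases le_total p q with h | h
  · simp only [min_eq_left h, max_eq_right h]
  · simp only [min_eq_right h, max_eq_left h]
    exact hsymm _ _ _

open Classical in
/-- The area assignment. -/
noncomputable def TS1_asg (N0 : ℕ) (it : ℕ → Item) (α β : ℕ → ℝ) (t : ℕ × ℕ × ℕ) : ℝ :=
  if (it ((t.2.2 - N0) / 5)).1 = 0 then (if (t.2.2 - N0) % 5 ≤ 2 then 0 else 1)
  else if (it ((t.2.2 - N0) / 5)).1 = 1 then 1
  else if (it ((t.2.2 - N0) / 5)).1 = 2 then (if N0 ≤ t.2.1 then 1 else 0)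
  else if t = mk (it ((t.2.2 - N0) / 5)).2.1 (it ((t.2.2 - N0) / 5)).2.2.1 t.2.2 then
    α ((t.2.2 - N0) / 5) else β ((t.2.2 - N0) / 5)

theorem TS1_asg_nonneg (N0 : ℕ) (it : ℕ → Item) (α β : ℕ → ℝ) (h : ∀ g, 0 ≤ α g ∧ 0 ≤ β g)
    (t : ℕ × ℕ × ℕ) : 0 ≤ TS1_asg N0 it α β t := by
  unfold TS1_asg
  split_ifs
  · exact le_rfl
  · exact zero_le_one
  · exact zero_le_one
  · exact zero_le_one
  · exact le_rfl
  · exact (h _).1
  · exact (h _).2

theorem TS1_asg_eq (N0 : ℕ) (it : ℕ → Item) (α β : ℕ → ℝ) (g c i j : ℕ) (hc : c < 5) :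
    TS1_asg N0 it α β (i, j, N0 + 5 * g + c) =
      if (it g).1 = 0 then (if c ≤ 2 then 0 else 1)
      else if (it g).1 = 1 then 1
      else if (it g).1 = 2 then (if N0 ≤ j then 1 else 0)
      else if (i, j, N0 + 5 * g + c) = mk (it g).2.1 (it g).2.2.1 (N0 + 5 * g + c) then α g
      else β g := by
  have h1 : (N0 + 5 * g + c - N0) / 5 = g := by omega
  have h2 : (N0 + 5 * g + c - N0) % 5 = c := by omega
  unfold TS1_asg
  simp only [h1, h2]

theorem TS1 (hSG : SG_stmt) : TS1_stmt := by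
  intro N0 G it hok hU α β hαβ
  obtain ⟨P, hP⟩ := hU (TS1_asg N0 it α β) (fun t _ => TS1_asg_nonneg N0 it α β hαβ t)
  refine ⟨P, fun g hg => ?_⟩
  have hmem : ∀ t ∈ trip (N0 + 5 * g) (it g),
      area (P t.1) (P t.2.1) (P t.2.2) = TS1_asg N0 it α β t := by
    intro t ht
    refine hP t ?_
    unfold sysT
    rw [List.mem_flatMap]
    exact ⟨g, List.mem_range.2 hg, ht⟩
  have hI := hok g hg
  have hA := TS1_asg_eq N0 it α β g
  rcases hit : it g with ⟨kd, p, q, r⟩
  rw [hit] at hmem hI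
  simp only [hit] at hA
  obtain ⟨h1, h2, h3, h4, h5, h6⟩ := hI
  simp only at h1 h2 h3 h4 h5 h6
  obtain ⟨hS1, hS2, hS3⟩ := hSG
  by_cases hk0 : kd = 0
  · subst hk0
    have htrip : trip (N0 + 5 * g) (0, p, q, r) =
        [mk p q (N0 + 5 * g), mk p q (N0 + 5 * g + 1), (r, N0 + 5 * g, N0 + 5 * g + 2),
          (r, N0 + 5 * g + 1, N0 + 5 * g + 2), (N0 + 5 * g, N0 + 5 * g + 1, N0 + 5 * g + 3),
          (r, N0 + 5 * g + 2, N0 + 5 * g + 4)] := rfl
    rw [htrip] at hmem
    have e1 := hmem (mk p q (N0 + 5 * g)) (by simp)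
    have e2 := hmem (mk p q (N0 + 5 * g + 1)) (by simp)
    have e3 := hmem (r, N0 + 5 * g, N0 + 5 * g + 2) (by simp)
    have e4 := hmem (r, N0 + 5 * g + 1, N0 + 5 * g + 2) (by simp)
    have e5 := hmem (N0 + 5 * g, N0 + 5 * g + 1, N0 + 5 * g + 3) (by simp)
    have e6 := hmem (r, N0 + 5 * g + 2, N0 + 5 * g + 4) (by simp)
    rw [TS1_area_mk] at e1 e2
    have a1 : TS1_asg N0 it α β (mk p q (N0 + 5 * g)) = 0 := by
      have := hA 0 (min p q) (max p q) (by norm_num)
      rw [if_pos rfl, if_pos (by norm_num)] at this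
      exact this
    have a2 : TS1_asg N0 it α β (mk p q (N0 + 5 * g + 1)) = 0 := by
      have := hA 1 (min p q) (max p q) (by norm_num)
      rw [if_pos rfl, if_pos (by norm_num)] at this
      exact this
    have a3 : TS1_asg N0 it α β (r, N0 + 5 * g, N0 + 5 * g + 2) = 0 := by
      have := hA 2 r (N0 + 5 * g) (by norm_num)
      simpa using this
    have a4 : TS1_asg N0 it α β (r, N0 + 5 * g + 1, N0 + 5 * g + 2) = 0 := by
      have := hA 2 r (N0 + 5 * g + 1) (by norm_num)
      simpa using this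
    have a5 : TS1_asg N0 it α β (N0 + 5 * g, N0 + 5 * g + 1, N0 + 5 * g + 3) = 1 := by
      have := hA 3 (N0 + 5 * g) (N0 + 5 * g + 1) (by norm_num)
      simpa using this
    have a6 : TS1_asg N0 it α β (r, N0 + 5 * g + 2, N0 + 5 * g + 4) = 1 := by
      have := hA 4 r (N0 + 5 * g + 2) (by norm_num)
      simpa using this
    rw [a1] at e1
    rw [a2] at e2
    rw [a3] at e3
    rw [a4] at e4
    rw [a5] at e5
    rw [a6] at e6
    show Need P (α g) (β g) (0, p, q, r)
    unfold Need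
    rw [if_pos rfl]
    intro hpq
    exact hS1 (P p) (P q) (P r) (P (N0 + 5 * g)) (P (N0 + 5 * g + 1)) (P (N0 + 5 * g + 2))
      (P (N0 + 5 * g + 3)) (P (N0 + 5 * g + 4)) hpq e1 e2 e3 e4 e5 e6
  by_cases hk1 : kd = 1
  · subst hk1
    have htrip : trip (N0 + 5 * g) (1, p, q, r) = [mk p q (N0 + 5 * g)] := rfl
    rw [htrip] at hmem
    have e1 := hmem (mk p q (N0 + 5 * g)) (by simp)
    rw [TS1_area_mk] at e1
    have a1 : TS1_asg N0 it α β (mk p q (N0 + 5 * g)) = 1 := by
      have := hA 0 (min p q) (max p q) (by norm_num)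
      rw [if_neg (by norm_num), if_pos rfl] at this
      exact this
    rw [a1] at e1
    unfold Need
    rw [if_neg (by norm_num), if_pos rfl]
    exact hS2 (P p) (P q) _ e1
  by_cases hk2 : kd = 2
  · subst hk2
    have htrip : trip (N0 + 5 * g) (2, p, q, r) =
        [mk p q (N0 + 5 * g), mk p r (N0 + 5 * g + 1), (p, N0 + 5 * g, N0 + 5 * g + 1)] := rfl
    rw [htrip] at hmem
    have e1 := hmem (mk p q (N0 + 5 * g)) (by simp)
    have e2 := hmem (mk p r (N0 + 5 * g + 1)) (by simp)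
    have e3 := hmem (p, N0 + 5 * g, N0 + 5 * g + 1) (by simp)
    rw [TS1_area_mk] at e1 e2
    have a1 : TS1_asg N0 it α β (mk p q (N0 + 5 * g)) = 0 := by
      have := hA 0 (min p q) (max p q) (by norm_num)
      rw [if_neg (by norm_num), if_neg (by norm_num), if_pos rfl, if_neg (by omega)] at this
      exact this
    have a2 : TS1_asg N0 it α β (mk p r (N0 + 5 * g + 1)) = 0 := by
      have := hA 1 (min p r) (max p r) (by norm_num)
      rw [if_neg (by norm_num), if_neg (by norm_num), if_pos rfl, if_neg (by omega)] at this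
      exact this
    have a3 : TS1_asg N0 it α β (p, N0 + 5 * g, N0 + 5 * g + 1) = 1 := by
      have := hA 1 p (N0 + 5 * g) (by norm_num)
      rw [if_neg (by norm_num), if_neg (by norm_num), if_pos rfl, if_pos (by omega)] at this
      exact this
    rw [a1] at e1
    rw [a2] at e2
    rw [a3] at e3
    unfold Need
    rw [if_neg (by norm_num), if_neg (by norm_num), if_pos rfl]
    intro hpq hpr
    exact hS3 (P p) (P q) (P r) (P (N0 + 5 * g)) (P (N0 + 5 * g + 1)) hpq hpr e1 e2 e3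
  have htrip : trip (N0 + 5 * g) (kd, p, q, r) =
      [mk p q (N0 + 5 * g), mk q r (N0 + 5 * g)] := by
    unfold trip
    rw [if_neg hk0, if_neg hk1, if_neg hk2]
  rw [htrip] at hmem
  have e1 := hmem (mk p q (N0 + 5 * g)) (by simp)
  have e2 := hmem (mk q r (N0 + 5 * g)) (by simp)
  rw [TS1_area_mk] at e1 e2
  have a1 : TS1_asg N0 it α β (mk p q (N0 + 5 * g)) = α g := by
    have := hA 0 (min p q) (max p q) (by norm_num)
    rw [if_neg hk0, if_neg hk1, if_neg hk2,
      if_pos (show (min p q, max p q, N0 + 5 * g + 0) = mk p q (N0 + 5 * g + 0) from rfl)] at this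
    exact this
  have a2 : TS1_asg N0 it α β (mk q r (N0 + 5 * g)) = β g := by
    have := hA 0 (min q r) (max q r) (by norm_num)
    rw [if_neg hk0, if_neg hk1, if_neg hk2, if_neg ?_] at this
    · exact this
    · intro h
      unfold mk at h
      rw [Prod.mk.injEq, Prod.mk.injEq] at h
      have h5' := h5 hk0 hk1
      have h6' := h6 hk0 hk1 hk2
      omega
  rw [a1] at e1
  rw [a2] at e2
  unfold Need
  rw [if_neg hk0, if_neg hk1, if_neg hk2]
  exact ⟨P (N0 + 5 * g), e1, e2⟩

end Pool.Agent.helper14.AU
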